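import Pool.Agent.P8H1.CG.Thm
set_option autoImplicit false

/-!
Beilinson's conjecture on regulators for curves, `i = 1`, `m = -1`, `n = 3` (the group
`H^2_M(C, ℚ(3))`, the weight three part of `K_4`), for the curves `x + 1/x = G(y + 1/y)`, `G` a monic
polynomial: unramified elements, invariant under Galois groups and odd under the two inversions, and
four curves on which the matrix of the regulators of two such elements is regular: the elliptic curves
`x + 1/x = y + 1/y + k`, `k = (1 + √5)/2`, `k = (3 + √5)/2`, over `ℚ(√5)`, and the curves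
`x + 1/x = v² - v - 2`, `x + 1/x = v² - v - 3`, `v = y + 1/y`, over `ℚ`, whose parts odd under the two
inversions are the Jacobians of the curves `w² = (G(v)² - 4)(v² - 4)` of genus two.

The weight three polylogarithmic complex `B_3 → B_2 ⊗ A^* → Λ^3 A^*`, its residues and the regulator
of closed paths are those of the starting result `MP_15b3df_nt.WeightThreeClasses`.
-/

namespace Pool.Agent.Results.MP_15b3df_nt.FullRankCurves

open Pool.Agent.N65.TK (Path Rels)

open Pool.Agent.P8H1.CG (Dat E2 E3 GG)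

open Pool.Agent.P8H1.CG.St

open Pool.Agent.P8H1.EK (tr)

/-- Let `K` be a number field.

(A) Let `G` be a polynomial over `K`, and let `ζ_j`, `ζ'_ji`, `j < r`, `i < d`, `d ≥ 1`, be roots of
unity in `K` such that `G - v_j = ∏_i (v - v'_ji)` for the numbers `v_j = ζ_j + 1/ζ_j`,
`v'_ji = ζ'_ji + 1/ζ'_ji` (`C.Admissible G`; so `G` is monic of degree `d` if `r ≥ 1`). Let
`A = C.Crv` be the coordinate ring of the open part of the curve `x + 1/x = G(y + 1/y)` in `𝔾_m²` over
`K` on which the functions `w_j = x + 1/x - v_j = ∏_i (y + 1/y - v'_ji)` do not vanish. The elements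

  `ξ_j = ({x / ζ_j}_2 + {x ζ_j}_2) ⊗ y + ∑_i ({y / ζ'_ji}_2 + {y ζ'_ji}_2) ⊗ x`

are unramified cocycles, their regulators change the sign under each of the inversions `x ↦ 1/x`,
`y ↦ 1/y`, and they are invariant under the endomorphisms `τ` of `K` which fix all `v_j` and map
`v'_j0, v'_j1, …` for each `j` to a permutation of these numbers.

(B) Let `d = 1`, `G = v + k`, `r ≥ 1`, `v_j ≠ v'_j0`, `v_j ≠ -v'_j0`. For every embedding `σ` of `K`
the complex points of the curve `x + 1/x = y + 1/y + σ(k)` are smooth (it is an elliptic curve without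
some points), and there is a closed path `γ` over `σ` such that for all `j` the regulator of `ξ_j`
along `γ` is not zero, its sign is opposite to the sign of `σ(k (v_j + v'_j0))`. So `ξ_j` is not in
the group of the relations.

(C) Let `K` contain a primitive `60`-th root of unity `ζ`, and `φ = ζ^6 + ζ^(-6)`, so `φ² = φ + 1`.
The data `D1 ζ`, `D2 ζ`, `E2 ζ`, `E3 ζ` satisfy the conditions of (A) with `G = v + φ`,
`v + φ + 1`, `v² - v - 2`, `v² - v - 3`, respectively, with two elements `ξ_0`, `ξ_1` each. All complex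
points of these curves (under all embeddings) are smooth. The elements for the first two curves are
invariant under the endomorphisms of `K` which fix `φ`, those for the last two curves under all
endomorphisms of `K`. For the first two curves and all embeddings `σ₁`, `σ₂` of `K` with
`σ₁(φ) ≠ σ₂(φ)` there are closed paths over `σ₁` and `σ₂` for which the determinant of the regulators
of `ξ_0`, `ξ_1` is not zero; for the last two curves and all embeddings `σ` of `K` there are two closed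
paths over `σ` with this property. In all four cases `ξ_0`, `ξ_1` are linearly independent modulo the
relations. -/
theorem result.{u, w} {K : Type u} [Field K] [NumberField K] :
    (∀ {d r : ℕ} (C : Dat K d r) (G : Polynomial K), 0 < d → C.Admissible G →
      (∀ j, Unramified.{u, w} C j) ∧ Odd C ∧ Descends C) ∧
    (∀ {r : ℕ} (C : Dat K 1 r) (k : K), Linear C k → (∀ j, C.xi j ∉ Rels C.Crv) ∧
      ∀ σ : K →+* ℂ, Smooth ((lin k).map σ) ∧ Sign C k σ) ∧
    ∀ ζ : Kˣ, IsPrimitiveRoot ζ 60 →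
      phi ζ ^ 2 = phi ζ + 1 ∧ AllAdmissible ζ ∧ (∀ σ, AllSmooth ζ σ) ∧
      (∀ τ : K →+* K, (τ (phi ζ) = phi ζ → Invariant (D1 ζ) τ ∧ Invariant (D2 ζ) τ) ∧
        Invariant (E2 ζ) τ ∧ Invariant (E3 ζ) τ) ∧
      (∀ σ₁ σ₂ : K →+* ℂ, σ₁ (phi ζ) ≠ σ₂ (phi ζ) →
        FullRank (D1 ζ) σ₁ σ₂ ∧ FullRank (D2 ζ) σ₁ σ₂) ∧
      (∀ σ : K →+* ℂ, FullRank (E2 ζ) σ σ ∧ FullRank (E3 ζ) σ σ) ∧
      Indep (D1 ζ) ∧ Indep (D2 ζ) ∧ Indep (E2 ζ) ∧ Indep (E3 ζ) := by
  refine ⟨?_, ?_, ?_⟩
  · intro d r C G hd hC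
    exact ⟨fun j => ⟨Pool.Agent.P8H1.CG.dif_xi hC j, fun L _ φ v =>
      Pool.Agent.P8H1.CG.bnd_xi v hC hd φ j⟩, odd C, fun τ e h h' => invariant C τ e h h'⟩
  · intro r C k ⟨hr, hC, hne⟩
    refine ⟨fun j => ?_, fun σ => ⟨smooth_one hC hne hr σ, ?_⟩⟩
    · obtain ⟨σ⟩ : Nonempty (K →+* ℂ) := inferInstance
      obtain ⟨γ, -, h2⟩ := Pool.Agent.P8H1.CG.exists_lin hC hne hr σ
      refine γ.not_mem fun h => ?_
      have h3 := h2 j
      rw [h, zero_mul] at h3
      exact lt_irrefl _ h3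
    · obtain ⟨γ, h1, h2⟩ := Pool.Agent.P8H1.CG.exists_lin hC hne hr σ
      exact ⟨γ, ⟨h1, fun s hs => γ.reg_of_mem hs⟩, h2⟩
  · intro ζ hζ
    obtain ⟨σ⟩ : Nonempty (K →+* ℂ) := inferInstance
    obtain ⟨σ₁, σ₂, hσ⟩ := two_embeddings (Pool.Agent.P8H1.EK.tr_six_sq hζ)
    have hmap : ∀ (n : ℕ) [n.AtLeastTwo] (σ : K →+* ℂ), (GG (OfNat.ofNat n : K)).map σ =
        Polynomial.X ^ 2 - Polynomial.X - Polynomial.C (OfNat.ofNat n : ℂ) := by
      intro n _ σ
      unfold GG
      rw [Polynomial.map_sub, Polynomial.map_sub, Polynomial.map_pow, Polynomial.map_X,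
        Polynomial.map_C, map_ofNat]
    exact ⟨Pool.Agent.P8H1.EK.tr_six_sq hζ, ⟨admD1 hζ, admD2 hζ, Pool.Agent.P8H1.CG.adm2 hζ,
      Pool.Agent.P8H1.CG.adm3 hζ⟩,
      fun σ => ⟨smooth_one (admD1 hζ) (neD1 hζ) two_pos σ,
        smooth_one (admD2 hζ) (neD2 hζ) two_pos σ, by
          rw [hmap 2]; exact smooth_two (Or.inl rfl), by
          rw [hmap 3]; exact smooth_two (Or.inr rfl)⟩,
      fun τ => ⟨fun h => invD hζ τ h, invE hζ τ⟩,
      fun σ₁ σ₂ h => fullD hζ σ₁ σ₂ h, fun σ => fullE hζ σ,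
      (fullD hζ σ₁ σ₂ hσ).1.indep, (fullD hζ σ₁ σ₂ hσ).2.indep, (fullE hζ σ).1.indep,
      (fullE hζ σ).2.indep⟩

end Pool.Agent.Results.MP_15b3df_nt.FullRankCurves
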