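import Pool.Agent.P8H1.KS.Main
import Pool.Agent.P8H1.KS.Twist
import Pool.Agent.P8H1.PD.Main
set_option autoImplicit false

/-!
Beilinson's conjecture on regulators for surfaces, `i = 2`, `m = -1`, `n = 4` (the group
`H^3_M(X, ℚ(4))`, a part of `K_5`): for the K3 surfaces `x + 1/x + y + 1/y + z + 1/z = ζ + 1/ζ`, `ζ` a
root of unity, `ζ^4 ≠ 1`, over the real field `ℚ(ζ + 1/ζ)`, unramified classes with nonzero
regulator at every place.

The polylogarithmic complex, the residues and the regulators of tori are those of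
`MP_15b3df_nt.PolylogHypersurfaces`; here the equation has factors on both sides, and the torus is not
contained in the compact torus `|x| = |y| = |z| = 1`.

Parts of the proof: helper76 (`Sgn`, `Neg`), helper88 (`Res`, `Alg`), helper38 (`Lw`, `Limc`, `Eval`).
-/

namespace Pool.Agent.Results.MP_15b3df_nt.K3Surfaces

open Pool.Agent.P8H1.PD (FS dif Rels Tor Unramified)

open Pool.Agent.P8H1.EK (tr)

open Pool.Agent.P8H1.KS

/-- The surface `x + 1/x + y + 1/y + z + 1/z = k` in the torus over `ℂ` is smooth: the partial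
derivatives `1 - 1/x²`, `1 - 1/y²`, `1 - 1/z²` do not vanish simultaneously at its points. -/
def Smooth (k : ℂ) : Prop :=
  ∀ x y z : ℂ, x ≠ 0 → y ≠ 0 → z ≠ 0 → x + x⁻¹ + y + y⁻¹ + z + z⁻¹ = k →
    1 - x⁻¹ ^ 2 ≠ 0 ∨ 1 - y⁻¹ ^ 2 ≠ 0 ∨ 1 - z⁻¹ ^ 2 ≠ 0

/-- The element `xi c` is, modulo the relations, fixed by an endomorphism of the coordinate ring which
is `τ` on the constants and multiplies the coordinates `x, y, z` by the sign `s`. -/
def Fixed {K : Type*} [Field K] (c : Kˣ) (τ : K →+* K) (s : ℤˣ) : Prop :=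
  ∃ f : Srf c →+* Srf c, (∀ a, f (cst c a) = cst c (τ a)) ∧
    f (cx c) = (s : ℤ) • (cx c : Srf c) ∧ f (cy c) = (s : ℤ) • (cy c : Srf c) ∧
    f (cz c) = (s : ℤ) • (cz c : Srf c) ∧ FS.map f (xi c) - xi c ∈ Rels (Srf c) 2

theorem fixed {K : Type*} [Field K] (c : Kˣ) (τ : K →+* K) (s : ℤˣ)
    (h : τ (tr c) = (s : ℤ) • tr c) : Fixed c τ s := by
  rcases Int.units_eq_one_or s with rfl | rfl
  · rw [Units.val_one, one_smul] at h
    refine ⟨gal c τ h, gal_cst c τ h, ?_, ?_, ?_, ?_⟩
    · rw [Units.val_one, one_smul]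
      exact congrArg Units.val (gal_x c τ h)
    · rw [Units.val_one, one_smul]
      exact congrArg Units.val (gal_y c τ h)
    · rw [Units.val_one, one_smul]
      exact congrArg Units.val (gal_z c τ h)
    · rw [gal_xi, sub_self]
      exact Submodule.zero_mem _
  · rw [Units.val_neg, Units.val_one, neg_one_smul] at h
    refine ⟨galS c τ h, galS_cst c τ h, ?_, ?_, ?_, galS_xi c τ h⟩
    · rw [Units.val_neg, Units.val_one, neg_one_smul]
      exact congrArg Units.val (galS_x c τ h)
    · rw [Units.val_neg, Units.val_one, neg_one_smul]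
      exact congrArg Units.val (galS_y c τ h)
    · rw [Units.val_neg, Units.val_one, neg_one_smul]
      exact congrArg Units.val (galS_z c τ h)

theorem pm_one {x : ℂ} (hx : x ≠ 0) (h : 1 - x⁻¹ ^ 2 = 0) : x + x⁻¹ = 2 ∨ x + x⁻¹ = -2 := by
  have h1 : x ^ 2 = 1 := by
    field_simp at h
    linear_combination h
  have h2 : (x - 1) * (x + 1) = 0 := by linear_combination h1
  rcases mul_eq_zero.1 h2 with h3 | h3
  · left
    have h4 : x = 1 := by linear_combination h3
    rw [h4]
    norm_num
  · right
    have h4 : x = -1 := by linear_combination h3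
    rw [h4]
    norm_num

theorem smooth {k : ℝ} (hk : |k| < 2) : Smooth (k : ℂ) := by
  intro x y z hx hy hz h
  by_contra hcon
  push Not at hcon
  obtain ⟨h1, h2, h3⟩ := hcon
  rw [abs_lt] at hk
  have key : ∀ t : ℝ, (t : ℂ) = (k : ℂ) → t = k := fun t ht => by exact_mod_cast ht
  rcases pm_one hx h1 with e1 | e1 <;> rcases pm_one hy h2 with e2 | e2 <;>
    rcases pm_one hz h3 with e3 | e3
  · have := key 6 (by push_cast; linear_combination h - e1 - e2 - e3)
    linarith
  · have := key 2 (by push_cast; linear_combination h - e1 - e2 - e3)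
    linarith
  · have := key 2 (by push_cast; linear_combination h - e1 - e2 - e3)
    linarith
  · have := key (-2) (by push_cast; linear_combination h - e1 - e2 - e3)
    linarith
  · have := key 2 (by push_cast; linear_combination h - e1 - e2 - e3)
    linarith
  · have := key (-2) (by push_cast; linear_combination h - e1 - e2 - e3)
    linarith
  · have := key (-2) (by push_cast; linear_combination h - e1 - e2 - e3)
    linarith
  · have := key (-6) (by push_cast; linear_combination h - e1 - e2 - e3)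
    linarith

/-- Let `K` be a number field and `c ∈ K` a root of unity with `c^4 ≠ 1`. Let `A = Srf c` be the
coordinate ring over `K` of the open part `w = x + 1/x - (c + 1/c) ≠ 0` of the surface
`x + 1/x + y + 1/y + z + 1/z = c + 1/c` in the torus. The element

  `ξ = ({x / c}_2 + {x c}_2) ⊗ y ∧ z - ({- z / y}_2 + {- y z}_2) ⊗ x ∧ y`

is a cocycle of the complex `B_3(A) ⊗ A^* → B_2(A) ⊗ Λ² A^* → Λ⁴ A^*` (tensored with `ℚ`), it is
unramified: for all fields `L` with a homomorphism `A → L` and all discrete valuations of `L` the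
residue of `ξ` in `B_2(κ) ⊗ κ^* ⊗ ℚ` modulo the elements `{f}_2 ⊗ f` is zero; and modulo the relations
it is fixed by the maps `τ` on the constants, `(x, y, z) ↦ s (x, y, z)`, for all endomorphisms `τ` of
`K` and signs `s` with `τ (c + 1/c) = s (c + 1/c)`.

For every embedding `σ` of `K` in `ℂ` the complex points of the surface over `σ` are smooth, and there
is a map `γ` of class `C²` of the torus `(ℝ/ℤ)²` to the complex points of `A` over `σ` such that the
integral of the regulator form over `γ` is zero for all elements of the subspace `Rels A` of relations,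
and for `ξ` it is a nonzero number of sign opposite to the sign of the real number `σ(c + 1/c)`. In
particular the class of `ξ` in the cohomology of the complex is not zero. -/
theorem result.{u, w} {K : Type u} [Field K] [NumberField K] (c : Kˣ)
    (hc : ∃ N : ℕ, 0 < N ∧ c ^ N = 1) (h4 : c ^ 4 ≠ 1) :
    dif (Srf c) 2 (xi c) = 0 ∧
    Unramified.{u, w} (xi c) ∧
    (∀ (τ : K →+* K) (s : ℤˣ), τ (tr c) = (s : ℤ) • tr c → Fixed c τ s) ∧
    xi c ∉ Rels (Srf c) 2 ∧
    ∀ σ : K →+* ℂ, Smooth (σ (tr c)) ∧
      ∃ γ : Tor (Srf c) 2, (∀ t a, γ.e t (cst c a) = σ a) ∧ (∀ s ∈ Rels (Srf c) 2, γ.reg s = 0) ∧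
        γ.reg (xi c) * (σ (tr c)).re < 0 := by
  refine ⟨s_dif c hc, fun L _ φ v π hπ => R.s_res c hc L φ v π hπ, fun τ s h => fixed c τ s h, ?_,
    fun σ => ⟨?_, exists_torus c σ hc h4⟩⟩
  · obtain ⟨σ⟩ : Nonempty (K →+* ℂ) := inferInstance
    obtain ⟨γ, -, -, h⟩ := exists_torus c σ hc h4
    refine γ.not_mem fun h0 => ?_
    rw [h0, zero_mul] at h
    exact lt_irrefl 0 h
  · obtain ⟨k, h1, h2, -⟩ := tr_real c σ hc h4
    rw [h1]
    exact smooth h2

end Pool.Agent.Results.MP_15b3df_nt.K3Surfaces
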