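import Pool.Agent.P8H1.PD.Main
set_option autoImplicit false

/-!
Beilinson's conjecture on regulators for varieties of any dimension `D ≥ 1`, `i = D`, `m = -1`,
`n = D + 2` (the group `H^(D+1)_M(X, ℚ(D + 2))`, a part of `K_(D+3)`): nonzero unramified elements on
the hypersurfaces `∏_j (1 - m_j) ^ (n_j) = μ` of the torus `𝔾_m^(D+1)`, where the `m_j` and `μ` are
monomials with `μ² = ∏_j (-m_j) ^ (n_j)`.
-/

namespace Pool.Agent.Results.MP_15b3df_nt.PolylogHypersurfaces

open Pool.Agent.P8H1.PD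

/-- Let `K` be a number field, let `d ≥ 0`, let `m_j = ε_j x^(a_j)`, `1 ≤ j ≤ r`, be monomials in
`x_0, …, x_(d+1)`, where the `ε_j ∈ K` are roots of unity and the exponents `a_j ∈ ℤ^(d+2)` are
pairwise not proportional and span `ℚ^(d+2)`, let `n_j ≥ 1` be integers and let `μ = c x^b` be a
monomial with `μ² = ∏_j (- m_j) ^ (n_j)` (`C.Admissible`). Let `A = C.Ring` be the coordinate ring of
the hypersurface

  `∏_j (1 - m_j) ^ (n_j) = μ`

of dimension `D = d + 1` in the torus `𝔾_m^(d+2)` over `K`. Consider the element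

  `α = ∑_j ∑_i (-1)^i n_j a_(j,i) / |a_j|² {m_j}_2 ⊗ ∧_(k ≠ i) x_k`.

(1) `α` is a cocycle of the complex `B_3(A) ⊗ Λ^(d) A^* → B_2(A) ⊗ Λ^(d+1) A^* → Λ^(d+3) A^*`
(tensored with `ℚ`).

(2) `α` is unramified: for all fields `L` with a homomorphism `A → L` and all discrete valuations `v`
of `L` the residue of `α` in the group `B_2(κ(v)) ⊗ Λ^d κ(v)^* ⊗ ℚ` modulo the elements
`{f}_2 ⊗ f ∧ …` is zero.

(3) Let `σ` be an embedding of `K` over which the (real) function `E = μ⁻¹ ∏_j (1 - m_j) ^ (n_j)`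
takes a value greater than `1` on the compact torus `|x_0| = … = |x_(d+1)| = 1`. Then the class of
`α` in the cohomology of the complex is not zero: there is a map `γ` of class `C²` of the
torus `(ℝ/ℤ)^(d+1)` to the complex points of the hypersurface over `σ`, with `|x_k| = 1` on its
image, such that the integral of the regulator form over `γ` is zero for all elements of the subspace
`Rels A` of relations, and is a negative number for `α`.

(4) The condition of (3) holds for every embedding `σ` if the `n_j = 2 p_j` are even and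
`μ = ∏_j (- m_j) ^ (p_j)`, so that the equation of the hypersurface is
`∏_j ((1 - m_j) (1 - m_j⁻¹)) ^ (p_j) = 1`, and also if `b` is not in the group generated by the
`a_j`. -/
theorem result.{u, w} {K : Type u} [Field K] [NumberField K] {d r : ℕ} (C : Dat K (d + 2) r)
    (hC : C.Admissible) :
    dif C.Ring (d + 1) (Dat.alpha hC) = 0 ∧
    Unramified.{u, w} (Dat.alpha hC) ∧
    (∀ σ : K →+* ℂ, C.Exceeds σ → Dat.alpha hC ∉ Rels C.Ring (d + 1) ∧
      ∃ γ : Tor C.Ring (d + 1), C.Over σ γ ∧ γ.Detects (Dat.alpha hC)) ∧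
    (C.Good → ∀ σ : K →+* ℂ, C.Exceeds σ) := by
  refine ⟨dif_alpha hC, fun L _ φ v π hπ => bnd_alpha φ v hπ hC, fun σ hE => ?_,
    fun h σ => exceeds σ hC h⟩
  obtain ⟨γ, h1, h2, h3⟩ := exists_tor σ hC hE
  exact ⟨γ.not_mem h3.ne, γ, ⟨h1, h2⟩, fun s hs => γ.reg_of_mem hs, h3⟩

end Pool.Agent.Results.MP_15b3df_nt.PolylogHypersurfaces
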