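import Pool.Agent.P8H1.SF.Loc
set_option autoImplicit false

/-!
Beilinson's conjecture on regulators for curves, `i = 1`, `m = -2`, `n = 4` (the group
`H^2_M(X, ℚ(4))`, the weight four part of `K_6`): unramified classes on the curves
`(x y)^a ((1 - x) (1 - y))^c = 1`, of genus `a + c - 1` for coprime `a`, `c`, with non-zero
regulator at every complex place.

For coprime `a`, `c` the curve is hyperelliptic: with `x y = s^c`, `(1 - x) (1 - y) = s^(-a)` and
`w = s^a (x - y)` it is `w² = (s^(a + c) + s^a - 1)² - 4 s^(2 a + c)`.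
-/

namespace Pool.Agent.Results.MP_15b3df_nt.WeightFourClasses

open Pool.Agent.N65.TK (Pt Path)

open Pool.Agent.P8H1.SF

open scoped WithZero

/-- The complex points of `A` over the embedding `σ` of the constants at which some element of `M`
vanishes. -/
def Zeros {R : Type*} [CommRing R] {a c : ℕ} (σ : R →+* ℂ) (M : Submonoid (Crv R a c)) :
    Set (Crv R a c →+* ℂ) :=
  {e | (∀ r, e (cst R a c r) = σ r) ∧ ∃ m ∈ M, e m = 0}

/-- The affine curve `(x y)^a ((1 - x) (1 - y))^c = 1` over `ℂ` is smooth: the partial derivatives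
of the equation do not vanish simultaneously at its points. -/
def Smooth (a c : ℕ) : Prop :=
  ∀ x y : ℂ, (x * y) ^ a * ((1 - x) * (1 - y)) ^ c = 1 →
    deriv (fun z => (z * y) ^ a * ((1 - z) * (1 - y)) ^ c) x ≠ 0 ∨
      deriv (fun z => (x * z) ^ a * ((1 - x) * (1 - z)) ^ c) y ≠ 0

theorem deriv_eq {a c : ℕ} {x y : ℂ} (h : (x * y) ^ a * ((1 - x) * (1 - y)) ^ c = 1)
    (hx : x ≠ 0) (hx1 : 1 - x ≠ 0) :
    deriv (fun z => (z * y) ^ a * ((1 - z) * (1 - y)) ^ c) x = a / x - c / (1 - x) := by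
  have h1 : HasDerivAt (fun z : ℂ => z ^ a) (a * x ^ a / x) x := by
    refine (hasDerivAt_pow a x).congr_deriv ?_
    rcases Nat.eq_zero_or_pos a with rfl | ha
    · simp
    · obtain ⟨m, rfl⟩ : ∃ m, a = m + 1 := ⟨a - 1, by omega⟩
      rw [Nat.add_sub_cancel, pow_succ]
      field_simp
  have h2 : HasDerivAt (fun z : ℂ => (1 - z) ^ c) (-(c * (1 - x) ^ c / (1 - x))) x := by
    refine (((hasDerivAt_id x).const_sub 1).pow c).congr_deriv ?_
    rcases Nat.eq_zero_or_pos c with rfl | hc
    · simp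
    · obtain ⟨m, rfl⟩ : ∃ m, c = m + 1 := ⟨c - 1, by omega⟩
      simp only [id, Nat.add_sub_cancel, pow_succ]
      field_simp
  have h3 : HasDerivAt (fun z : ℂ => (z * y) ^ a * ((1 - z) * (1 - y)) ^ c)
      ((a * x ^ a / x * (1 - x) ^ c + x ^ a * -(c * (1 - x) ^ c / (1 - x))) *
        (y ^ a * (1 - y) ^ c)) x := by
    have h4 := (h1.mul h2).mul_const (y ^ a * (1 - y) ^ c)
    refine h4.congr_of_eventuallyEq (Filter.Eventually.of_forall fun z => ?_)
    simp only [Pi.mul_apply]
    rw [mul_pow, mul_pow]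
    ring
  rw [h3.deriv]
  have e : (x ^ a * (1 - x) ^ c) * (y ^ a * (1 - y) ^ c) = 1 := by
    rw [mul_pow, mul_pow] at h
    linear_combination h
  have e2 : (a * x ^ a / x * (1 - x) ^ c + x ^ a * -(c * (1 - x) ^ c / (1 - x))) *
        (y ^ a * (1 - y) ^ c) = (a / x - c / (1 - x)) *
        ((x ^ a * (1 - x) ^ c) * (y ^ a * (1 - y) ^ c)) := by ring
  rw [e2, e, mul_one]

theorem crit {a c : ℕ} {x : ℂ} (hx : x ≠ 0) (hx1 : 1 - x ≠ 0)
    (h : (a : ℂ) / x - c / (1 - x) = 0) : ((a : ℂ) + c) * x = a := by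
  field_simp at h
  linear_combination -h

theorem smooth {a c : ℕ} (ha : 1 ≤ a) (hc : 1 ≤ c) : Smooth a c := by
  intro x y h
  by_contra hcon
  rw [not_or, not_not, not_not] at hcon
  obtain ⟨h1, h2⟩ := hcon
  have hx : x ≠ 0 := by
    rintro rfl
    rw [zero_mul, zero_pow (by omega), zero_mul] at h
    exact zero_ne_one h
  have hy : y ≠ 0 := by
    rintro rfl
    rw [mul_zero, zero_pow (by omega), zero_mul] at h
    exact zero_ne_one h
  have hx1 : 1 - x ≠ 0 := by
    intro h0
    rw [h0, zero_mul, zero_pow (by omega), mul_zero] at h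
    exact zero_ne_one h
  have hy1 : 1 - y ≠ 0 := by
    intro h0
    rw [h0, mul_zero, zero_pow (by omega), mul_zero] at h
    exact zero_ne_one h
  have h' : (y * x) ^ a * ((1 - y) * (1 - x)) ^ c = 1 := by
    rw [mul_comm y, mul_comm (1 - y), h]
  rw [deriv_eq h hx hx1] at h1
  have e : (fun z => (x * z) ^ a * ((1 - x) * (1 - z)) ^ c) =
      fun z => (z * x) ^ a * ((1 - z) * (1 - x)) ^ c := by
    funext z
    rw [mul_comm x, mul_comm (1 - x)]
  rw [e, deriv_eq h' hy hy1] at h2
  have c1 := crit hx hx1 h1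
  have c2 := crit hy hy1 h2
  have ha' : (0 : ℝ) < a := by exact_mod_cast ha
  have hc' : (0 : ℝ) < c := by exact_mod_cast hc
  have hac : ((a : ℂ) + c) ≠ 0 := by exact_mod_cast (by omega : a + c ≠ 0)
  have ex : x = ((a / (a + c) : ℝ) : ℂ) := by
    push_cast
    rw [eq_div_iff hac]
    linear_combination c1
  have ey : y = ((a / (a + c) : ℝ) : ℂ) := by
    push_cast
    rw [eq_div_iff hac]
    linear_combination c2
  rw [ex, ey] at h
  have h3 : ((a / (a + c) * (a / (a + c)) : ℝ)) ^ a *
      ((1 - a / (a + c)) * (1 - a / (a + c)) : ℝ) ^ c = 1 := by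
    exact_mod_cast h
  set q : ℝ := a / (a + c) with hq
  have q0 : 0 < q := by positivity
  have q1 : q < 1 := by
    rw [hq, div_lt_one (by positivity)]
    linarith
  have b1 : (q * q) ^ a < 1 := pow_lt_one₀ (by positivity) (by nlinarith) (by omega)
  have b2 : ((1 - q) * (1 - q)) ^ c < 1 :=
    pow_lt_one₀ (by nlinarith) (by nlinarith) (by omega)
  have b3 : 0 < ((1 - q) * (1 - q)) ^ c := pow_pos (by nlinarith) _
  nlinarith

/-- Let `a, c ≥ 1`. The affine curve `(x y)^a ((1 - x) (1 - y))^c = 1` over `ℂ` is smooth.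

Let `R` be a commutative ring, and let `A = Crv R a c` be the coordinate ring of the open part
`x ≠ y` of this curve over `R`. The element

  `ξ = {x}_3 ⊗ (1 - y) + {1 - x}_3 ⊗ y - {y}_3 ⊗ (1 - x) - {1 - y}_3 ⊗ x
    + (1/c {y / x}_3 + 1/a {(1 - x) / (1 - y)}_3 + 1/(a + c) ({x}_3 + {1 - x}_3 + {1 - 1 / x}_3
    - {(1 - 1 / x) / (1 - 1 / y)}_3)) ⊗ x^a (1 - x)^c`

is a cocycle of the complex `B_4(A) → B_3(A) ⊗ A^* → B_2(A) ⊗ Λ² A^* → Λ⁴ A^*` (tensored with `ℚ`)
and unramified: for all fields `L` with a homomorphism `A → L` and all discrete valuations `v` of `L`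
the residue `∑ log v(g) {f}_3` of `ξ = ∑ {f}_3 ⊗ g` is zero, already as a formal sum of elements of
the residue field.

Let `σ : R → ℂ` be a homomorphism, and let `B` be the localisation of `A` at a multiplicative set `M`
such that only for countably many complex points of `A` over `σ` some element of `M` vanishes (for
`a`, `c` coprime, `R` a number field and `M = A \ {0}` this holds, and `B` is the function field of
the curve). Then there is a closed path `γ` of class `C²` in the complex points of `B` over `σ` such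
that the integrals along `γ` of the regulator form

  `T(f) d arg g - (1/3) D(f) log |g| d log |f|`   (for `{f}_3 ⊗ g`),

`T` the single-valued trilogarithm and `D` the Bloch-Wigner function, vanish on the relations
(bilinearity, the functional equations of the trilogarithm, and the elements `{f}_3 ⊗ f`), and such
that the regulator of `ξ` along `γ` is negative. -/
theorem result.{u, v, w} {a c : ℕ} (ha : 1 ≤ a) (hc : 1 ≤ c) :
    Smooth a c ∧
    ∀ (R : Type u) [CommRing R],
      dif (Crv R a c) (xi R ha hc) = 0 ∧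
      (∀ (L : Type w) [Field L] (φ : Crv R a c →+* L) (v : Valuation L ℤᵐ⁰),
        bnd v (FS.map φ (xi R ha hc)) = 0) ∧
      ∀ (σ : R →+* ℂ) (M : Submonoid (Crv R a c)), (Zeros σ M).Countable →
        ∀ (B : Type v) [CommRing B] [Algebra (Crv R a c) B] [IsLocalization M B],
          ∃ γ : Path B,
            (∀ t r, γ.e t (algebraMap (Crv R a c) B (cst R a c r)) = σ r) ∧
            (∀ s ∈ Rels B, reg γ s = 0) ∧
            reg γ (FS.map (algebraMap (Crv R a c) B) (xi R ha hc)) < 0 := by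
  refine ⟨smooth ha hc, fun R _ => ⟨dif_xi R ha hc, fun L _ φ v => bnd_xi R ha hc φ v,
    fun σ M hM B _ _ _ => ?_⟩⟩
  obtain ⟨γ, h1, h2, h3⟩ := exists_path ha hc R σ (Zeros σ M) hM
  have h : ∀ t, ∀ m ∈ M, γ.e t m ≠ 0 := fun t m hm h0 => h2 t ⟨h1 t, m, hm, h0⟩
  refine ⟨locPath M B γ h, fun t r => ?_, fun s hs => reg_of_mem _ hs, ?_⟩
  · rw [locPath_e, h1]
  · rw [reg_loc]
    exact h3

end Pool.Agent.Results.MP_15b3df_nt.WeightFourClasses
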